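import Pool.Agent.U559.QS.Fin

/-!
# MP_6e86bf_an, Q1: measures of weak non-compactness in Lipschitz-free spaces

`FreeSp 𝕜 M o` is the Lipschitz-free space `F(M)` over `𝕜 = ℝ` or `ℂ`, the closed linear span of the
evaluation functionals in the dual of `Lip_0(M)`. `omegaM` is De Blasi's measure `ω`, `wkM` the
measure `wk`, both with values in `[0, ∞]`.

Proof. If `ω(A) > s`, then for each finite set `S` in `M` some element of `A` has distance greater
than `s` from the span of the evaluations at the points of `S`, since balls of this finite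
dimensional space are weakly compact. By the selection theorem `Pool.Agent.U559.QS.far` the set `A`
contains a sequence `(y_n)` such that for all scalars `|σ_n| ≤ 1` there is `F` in the unit ball of
`F(M)*` with `|F(y_n) - σ_n γ_n| ≤ ε`, where `γ_n ≥ (s - ε) / 60`. Every weak* cluster point of such
a sequence has distance at least `(s - ε) / 60 - ε` from `F(M)` (`Pool.Agent.U559.QS.clust_far`).
-/

set_option autoImplicit false

universe u v

namespace Pool.Agent.Results.MP_6e86bf_an.DeBlasiEquivalence

open Pool.Agent.U559.QS

/-- Let `𝕜` be `ℝ` or `ℂ` and let `M` be a uniformly separated pointed metric space, bounded or not.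
Then `ω(A) ≤ 60 wk(A)` for every bounded set `A` in `F(M)`. -/
theorem result (𝕜 : Type v) [RCLike 𝕜] (M : Type u) [MetricSpace M] (o : M)
    (hM : UniformlySeparated M) (A : Set (FreeSp 𝕜 M o)) (hA : ∃ B : ℝ, ∀ x ∈ A, ‖x‖ ≤ B) :
    omegaM 𝕜 A ≤ 60 * wkM 𝕜 A :=
  omega_le hM A hA

end Pool.Agent.Results.MP_6e86bf_an.DeBlasiEquivalence
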